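import Pool.Agent.Helper35.HSF.StB

/-!
# Project HSF, module SL1 : barrier at a maximal normal curvature
-/

set_option autoImplicit false

namespace Helper30.HSF

open Helper35.HSF Helper35.MS Helper35.PI Helper35.PI2 Helper32.CL
open scoped ContDiff Manifold Topology ENNReal BigOperators
open MeasureTheory Set Filter

/-! ### One variable -/

private theorem third_nonpos (g g1 g2 : ℝ → ℝ) (g3 : ℝ)
    (h1 : ∀ᶠ r in 𝓝 (0 : ℝ), HasDerivAt g (g1 r) r)
    (h2 : ∀ᶠ r in 𝓝 (0 : ℝ), HasDerivAt g1 (g2 r) r)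
    (h3 : HasDerivAt g2 g3 0) (g0 : g 0 = 0) (g10 : g1 0 = 0) (g20 : g2 0 = 0)
    (hle : ∀ᶠ r in 𝓝 (0 : ℝ), g r ≤ 0) : g3 ≤ 0 := by
  by_contra hcon
  push Not at hcon
  have h4 : ∀ᶠ r in 𝓝 (0 : ℝ), 0 < r → 0 < g2 r := by
    have h5 := hasDerivAt_iff_tendsto_slope.1 h3
    have h6 : ∀ᶠ r in 𝓝[≠] (0 : ℝ), 0 < slope g2 0 r := h5.eventually_const_lt hcon
    rw [eventually_nhdsWithin_iff] at h6
    filter_upwards [h6] with r hr hr0
    have h7 := hr (by simpa using hr0.ne')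
    rw [slope_def_field, g20, sub_zero, sub_zero] at h7
    exact (div_pos_iff_of_pos_right hr0).1 h7
  obtain ⟨δ, hδ, hball⟩ := Metric.eventually_nhds_iff.1 (h1.and (h2.and (h4.and hle)))
  have hin : ∀ r, 0 ≤ r → r ≤ δ / 2 → HasDerivAt g (g1 r) r ∧ HasDerivAt g1 (g2 r) r ∧
      (0 < r → 0 < g2 r) ∧ g r ≤ 0 := by
    intro r h0 h5
    refine hball ?_
    rw [Real.dist_eq, sub_zero, abs_of_nonneg h0]
    linarith
  have m1 : StrictMonoOn g1 (Icc 0 (δ / 2)) := by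
    refine strictMonoOn_of_deriv_pos (convex_Icc _ _) ?_ ?_
    · intro r hr
      exact (hin r hr.1 hr.2).2.1.continuousAt.continuousWithinAt
    · intro r hr
      rw [interior_Icc] at hr
      obtain ⟨-, a2, a3, -⟩ := hin r hr.1.le hr.2.le
      rw [a2.deriv]
      exact a3 hr.1
  have m2 : StrictMonoOn g (Icc 0 (δ / 2)) := by
    refine strictMonoOn_of_deriv_pos (convex_Icc _ _) ?_ ?_
    · intro r hr
      exact (hin r hr.1 hr.2).1.continuousAt.continuousWithinAt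
    · intro r hr
      rw [interior_Icc] at hr
      obtain ⟨a1, -, -, -⟩ := hin r hr.1.le hr.2.le
      rw [a1.deriv, ← g10]
      exact m1 ⟨le_rfl, by linarith⟩ ⟨hr.1.le, hr.2.le⟩ hr.1
  have h8 : g 0 < g (δ / 2) := m2 ⟨le_rfl, by linarith⟩ ⟨by linarith, le_rfl⟩ (by linarith)
  have h9 := (hin (δ / 2) (by linarith) le_rfl).2.2.2
  rw [g0] at h8
  linarith

private theorem third_zero (g g1 g2 : ℝ → ℝ) (g3 : ℝ)
    (h1 : ∀ᶠ r in 𝓝 (0 : ℝ), HasDerivAt g (g1 r) r)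
    (h2 : ∀ᶠ r in 𝓝 (0 : ℝ), HasDerivAt g1 (g2 r) r)
    (h3 : HasDerivAt g2 g3 0) (g0 : g 0 = 0) (g10 : g1 0 = 0) (g20 : g2 0 = 0)
    (hle : ∀ᶠ r in 𝓝 (0 : ℝ), g r ≤ 0) : g3 = 0 := by
  refine le_antisymm (third_nonpos g g1 g2 g3 h1 h2 h3 g0 g10 g20 hle) ?_
  have hneg : Tendsto (fun r : ℝ => -r) (𝓝 0) (𝓝 0) := by
    have h := (continuous_neg (G := ℝ)).tendsto 0
    rwa [neg_zero] at h
  have key := third_nonpos (fun r => g (-r)) (fun r => -g1 (-r)) (fun r => g2 (-r)) (-g3)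
    ?_ ?_ ?_ ?_ ?_ ?_ ?_
  · linarith
  · filter_upwards [hneg.eventually h1] with r hr
    have h := hr.comp r (hasDerivAt_neg r)
    have e : g1 (-r) * -1 = -g1 (-r) := by ring
    rw [e] at h
    exact h
  · filter_upwards [hneg.eventually h2] with r hr
    have h := (hr.comp r (hasDerivAt_neg r)).neg
    have e : -(g2 (-r) * -1) = g2 (-r) := by ring
    rw [e] at h
    exact h
  · have h3' : HasDerivAt g2 g3 (-0) := by rwa [neg_zero]
    have h := h3'.comp (0 : ℝ) (hasDerivAt_neg (0 : ℝ))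
    have e : g3 * -1 = -g3 := by ring
    rw [e] at h
    exact h
  · simpa using g0
  · simpa using g10
  · simpa using g20
  · exact hneg.eventually hle

/-! ### Lines -/

section lines

variable {n : ℕ} {V : Type*} [NormedAddCommGroup V] [NormedSpace ℝ V]

/-- the vector with coordinates `c` -/
noncomputable def vc (c : Fin n → ℝ) : EE n := ∑ i, c i • ee i

private theorem vc_apply (c : Fin n → ℝ) (j : Fin n) : vc c j = c j := by
  unfold vc ee
  simp [Finset.sum_apply, Pi.single_apply]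

private theorem line_deriv (φ : EE n × ℝ → V) (c : Fin n → ℝ) (t r : ℝ)
    (h : DifferentiableAt ℝ φ (r • vc c, t)) :
    HasDerivAt (fun r : ℝ => φ (r • vc c, t)) (∑ k, c k • jg φ (r • vc c, t) k) r := by
  have h1 : HasDerivAt (fun r : ℝ => ((r • vc c, t) : EE n × ℝ)) (vc c, 0) r := by
    have h2 : HasDerivAt (fun r : ℝ => r • vc c) (vc c) r := by
      have h3 := (hasDerivAt_id r).smul_const (vc c)
      simpa using h3
    exact h2.prodMk (hasDerivAt_const r t)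
  have h4 := h.hasFDerivAt.comp_hasDerivAt r h1
  have h5 : fderiv ℝ φ (r • vc c, t) (vc c, 0) = ∑ k, c k • jg φ (r • vc c, t) k := by
    have h6 : ((vc c, 0) : EE n × ℝ) = ∑ k, c k • ((ee k, 0) : EE n × ℝ) := by
      refine Prod.ext ?_ ?_
      · rw [Prod.fst_sum]
        rfl
      · rw [Prod.snd_sum]
        simp
    rw [h6, map_sum]
    refine Finset.sum_congr rfl fun k _ => ?_
    rw [map_smul]
    rfl
  rw [h5] at h4
  exact h4

end lines

private theorem norm_L {n N : ℕ} (L : EE n →ₗᵢ[ℝ] EE N) (c : Fin n → ℝ) :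
    ‖∑ i, c i • L (ee i)‖ ^ 2 = ∑ i, c i ^ 2 := by
  have h1 : ∑ i, c i • L (ee i) = L (vc c) := by
    unfold vc
    rw [map_sum]
    exact Finset.sum_congr rfl fun i _ => (map_smul L (c i) (ee i)).symm
  rw [h1, L.norm_map, EuclideanSpace.norm_sq_eq]
  refine Finset.sum_congr rfl fun i _ => ?_
  rw [vc_apply, Real.norm_eq_abs, sq_abs]

private theorem norm_vc {n : ℕ} (c : Fin n → ℝ) : ‖vc c‖ ^ 2 = ∑ i, c i ^ 2 := by
  rw [EuclideanSpace.norm_sq_eq]
  refine Finset.sum_congr rfl fun i _ => ?_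
  rw [vc_apply, Real.norm_eq_abs, sq_abs]

/-! ### Linear algebra -/

private theorem pos_of_sq_pos {x : ℝ} (h0 : 0 ≤ x) (h : 0 < x ^ 2) : 0 < x := by
  rcases h0.eq_or_lt with h1 | h1
  · rw [← h1] at h
    norm_num at h
  · exact h1

private theorem lin_zero (a b : ℝ) (h : ∀ s : ℝ, 0 ≤ 2 * s * a + s ^ 2 * b) : a = 0 := by
  have h1 := h (-a / (|b| + 1))
  have hb : 0 < |b| + 1 := by positivity
  have h2 : 2 * (-a / (|b| + 1)) * a + (-a / (|b| + 1)) ^ 2 * b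
      = (a ^ 2 * (b - 2 * (|b| + 1))) / (|b| + 1) ^ 2 := by
    field_simp
    ring
  rw [h2, le_div_iff₀ (by positivity), zero_mul] at h1
  have h3 : b - 2 * (|b| + 1) < 0 := by
    have := le_abs_self b
    have := abs_nonneg b
    linarith
  by_contra ha
  have h4 : 0 < a ^ 2 := by positivity
  nlinarith

private theorem eig {n : ℕ} (K : Fin n → Fin n → ℝ) (hK : ∀ i j, K i j = K j i) (P : ℝ)
    (c : Fin n → ℝ) (h1 : ∀ V : Fin n → ℝ, ∑ i, ∑ j, K i j * (V i * V j) ≤ P * ∑ i, V i ^ 2)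
    (h2 : ∑ i, ∑ j, K i j * (c i * c j) = P * ∑ i, c i ^ 2) (i : Fin n) :
    ∑ j, K i j * c j = P * c i := by
  have h3 : ∀ W : Fin n → ℝ, P * (∑ i, c i * W i) - ∑ i, ∑ j, K i j * (W i * c j) = 0 := by
    intro W
    refine lin_zero _ (P * (∑ i, W i ^ 2) - ∑ i, ∑ j, K i j * (W i * W j)) ?_
    intro s
    have h4 := h1 (fun i => c i + s * W i)
    have e1 : ∑ i, (c i + s * W i) ^ 2
        = ∑ i, c i ^ 2 + 2 * s * (∑ i, c i * W i) + s ^ 2 * ∑ i, W i ^ 2 := by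
      rw [Finset.mul_sum, Finset.mul_sum, ← Finset.sum_add_distrib, ← Finset.sum_add_distrib]
      exact Finset.sum_congr rfl fun i _ => by ring
    have e2 : ∑ i, ∑ j, K i j * (c i * W j) = ∑ i, ∑ j, K i j * (W i * c j) := by
      rw [Finset.sum_comm]
      refine Finset.sum_congr rfl fun i _ => Finset.sum_congr rfl fun j _ => ?_
      rw [hK j i]
      ring
    have e3 : ∑ i, ∑ j, K i j * ((c i + s * W i) * (c j + s * W j))
        = ∑ i, ∑ j, K i j * (c i * c j) + s * (∑ i, ∑ j, K i j * (c i * W j))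
          + s * (∑ i, ∑ j, K i j * (W i * c j)) + s ^ 2 * ∑ i, ∑ j, K i j * (W i * W j) := by
      simp only [Finset.mul_sum, ← Finset.sum_add_distrib]
      exact Finset.sum_congr rfl fun i _ => Finset.sum_congr rfl fun j _ => by ring
    rw [e1, e3, e2, h2] at h4
    nlinarith
  have h5 := h3 (fun i => P * c i - ∑ j, K i j * c j)
  have h6 : P * (∑ i, c i * (P * c i - ∑ j, K i j * c j))
      - ∑ i, ∑ j, K i j * ((P * c i - ∑ j, K i j * c j) * c j)
      = ∑ i, (P * c i - ∑ j, K i j * c j) ^ 2 := by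
    rw [Finset.mul_sum, ← Finset.sum_sub_distrib]
    refine Finset.sum_congr rfl fun i _ => ?_
    have e4 : ∑ j, K i j * ((P * c i - ∑ j, K i j * c j) * c j)
        = (P * c i - ∑ j, K i j * c j) * ∑ j, K i j * c j := by
      rw [Finset.mul_sum]
      exact Finset.sum_congr rfl fun j _ => by ring
    rw [e4]
    ring
  rw [h6] at h5
  have h7 := (Finset.sum_eq_zero_iff_of_nonneg (fun i _ => sq_nonneg _)).1 h5 i (Finset.mem_univ i)
  have h8 := pow_eq_zero_iff (two_ne_zero) |>.1 h7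
  linarith

private theorem algB {n : ℕ} (K : Fin n → Fin n → ℝ) (T : Fin n → Fin n → Fin n → ℝ)
    (hT1 : ∀ i j k, T i j k = T j i k) (P Q : ℝ) (hQP : Q < P)
    (c : Fin n → ℝ) (hc : ∑ i, c i ^ 2 = 1)
    (h1 : ∀ V : Fin n → ℝ, Q * ∑ i, V i ^ 2 ≤ ∑ i, ∑ j, K i j * (V i * V j))
    (hTc : ∑ k, ∑ i, ∑ j, T k i j * (c k * (c i * c j)) = 0)
    (τ : Fin n → ℝ) (hτ : τ = fun k => ∑ i, ∑ j, T k i j * (c i * c j))
    (B : Fin n → Fin n → ℝ)
    (hB : B = fun k i => (1 / (P - Q)) * (∑ j, T k i j * c j - τ k * c i)) :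
    (∀ k, ∑ j, B k j * c j = 0) ∧
    2 * (∑ k, (P * (∑ i, B k i ^ 2) - ∑ i, ∑ j, K i j * (B k i * B k j)))
      - 4 * ∑ k, ∑ i, ∑ j, T k i j * (B k i * c j) ≤ -(2 / (P - Q) * ∑ k, τ k ^ 2) := by
  have hD : 0 < P - Q := by linarith
  have hDB : ∀ k i, ∑ j, T k i j * c j = (P - Q) * B k i + τ k * c i := by
    intro k i
    rw [hB]
    simp only []
    field_simp
    ring
  have hτ' : ∀ k, ∑ i, (∑ j, T k i j * c j) * c i = τ k := by
    intro k
    rw [hτ]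
    simp only []
    refine Finset.sum_congr rfl fun i _ => ?_
    rw [Finset.sum_mul]
    exact Finset.sum_congr rfl fun j _ => by ring
  have hBc : ∀ k, ∑ j, B k j * c j = 0 := by
    intro k
    have e1 := hτ' k
    simp only [hDB] at e1
    have e2 : ∑ i, ((P - Q) * B k i + τ k * c i) * c i
        = (P - Q) * (∑ i, B k i * c i) + τ k * ∑ i, c i ^ 2 := by
      rw [Finset.mul_sum, Finset.mul_sum, ← Finset.sum_add_distrib]
      exact Finset.sum_congr rfl fun i _ => by ring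
    rw [e2, hc, mul_one] at e1
    have e3 : (P - Q) * (∑ i, B k i * c i) = 0 := by linarith
    rcases mul_eq_zero.1 e3 with h | h
    · exact absurd h hD.ne'
    · exact h
  refine ⟨hBc, ?_⟩
  have hTB : ∀ k, ∑ i, ∑ j, T k i j * (B k i * c j) = (P - Q) * ∑ i, B k i ^ 2 := by
    intro k
    have e1 : ∀ i, ∑ j, T k i j * (B k i * c j) = (P - Q) * B k i ^ 2 + τ k * (B k i * c i) := by
      intro i
      have e2 : ∑ j, T k i j * (B k i * c j) = B k i * ∑ j, T k i j * c j := by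
        rw [Finset.mul_sum]
        exact Finset.sum_congr rfl fun j _ => by ring
      rw [e2, hDB]
      ring
    simp only [e1]
    rw [Finset.sum_add_distrib, ← Finset.mul_sum, ← Finset.mul_sum, hBc, mul_zero, add_zero]
  have hτB : ∀ i, τ i = (P - Q) * ∑ k, c k * B k i := by
    intro i
    have e1 : (P - Q) * (∑ k, c k * B k i) = ∑ k, c k * (∑ j, T k i j * c j)
        - c i * ∑ k, c k * τ k := by
      rw [Finset.mul_sum, Finset.mul_sum, ← Finset.sum_sub_distrib]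
      refine Finset.sum_congr rfl fun k _ => ?_
      rw [hDB]
      ring
    have e2 : ∑ k, c k * τ k = 0 := by
      rw [← hTc, hτ]
      refine Finset.sum_congr rfl fun k _ => ?_
      rw [Finset.mul_sum]
      refine Finset.sum_congr rfl fun i _ => ?_
      rw [Finset.mul_sum]
      exact Finset.sum_congr rfl fun j _ => by ring
    have e3 : ∑ k, c k * (∑ j, T k i j * c j) = τ i := by
      rw [hτ]
      simp only []
      refine Finset.sum_congr rfl fun k _ => ?_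
      rw [Finset.mul_sum]
      refine Finset.sum_congr rfl fun j _ => ?_
      rw [hT1 k i j]
      ring
    rw [e1, e2, e3]
    ring
  have hcs : ∑ k, τ k ^ 2 ≤ (P - Q) ^ 2 * ∑ k, ∑ i, B k i ^ 2 := by
    rw [Finset.sum_comm, Finset.mul_sum]
    refine Finset.sum_le_sum fun i _ => ?_
    rw [hτB i, mul_pow]
    refine mul_le_mul_of_nonneg_left ?_ (sq_nonneg _)
    have e1 := Finset.sum_mul_sq_le_sq_mul_sq (Finset.univ : Finset (Fin n)) c (fun k => B k i)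
    rw [hc, one_mul] at e1
    exact e1
  have hK : ∑ k, (P * (∑ i, B k i ^ 2) - ∑ i, ∑ j, K i j * (B k i * B k j))
      ≤ (P - Q) * ∑ k, ∑ i, B k i ^ 2 := by
    rw [Finset.mul_sum]
    refine Finset.sum_le_sum fun k _ => ?_
    have e1 := h1 (B k)
    linarith
  have hT2 : ∑ k, ∑ i, ∑ j, T k i j * (B k i * c j) = (P - Q) * ∑ k, ∑ i, B k i ^ 2 := by
    rw [Finset.mul_sum]
    exact Finset.sum_congr rfl fun k _ => hTB k
  rw [hT2]
  have hfin : 2 / (P - Q) * ∑ k, τ k ^ 2 ≤ 2 * ((P - Q) * ∑ k, ∑ i, B k i ^ 2) := by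
    rw [div_mul_eq_mul_div, div_le_iff₀ hD]
    nlinarith
  linarith

/-! ### Membership -/

section geo

variable {n : ℕ} {M : Type} [TopologicalSpace M] [ChartedSpace (EE n) M]

private theorem mem_ev (hG2 : StG2) (hNR : StNR) (J : Set ℝ) (F ν : M → ℝ → EE (n + 2))
    (hF : HFl n J F ν) (x₀ : M) (t₀ : ℝ) (ht₀ : t₀ ∈ J) (L : EE n →ₗᵢ[ℝ] EE (n + 2))
    (u : EE n × ℝ → EE (n + 2)) (θ : EE n × ℝ → M) (hG : GCh n F x₀ t₀ L u θ) :
    ∀ᶠ z in 𝓝 ((0 : EE n), t₀), ∀ U : Fin n → ℝ,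
      0 < ‖∑ i, U i • dv1 (grf (F x₀ t₀) L u z.2) z.1 i‖ →
      (∑ i, ∑ j, U i * U j * (inner ℝ (jgg u z i j) (ν (θ z) z.2) : ℝ))
        / ‖∑ i, U i • dv1 (grf (F x₀ t₀) L u z.2) z.1 i‖ ^ 2 ∈ ZS n F ν (θ z) z.2 := by
  have hJ : ∀ᶠ z in 𝓝 ((0 : EE n), t₀), z.2 ∈ J :=
    continuous_snd.continuousAt.eventually (hF.mcf.op.mem_nhds ht₀)
  filter_upwards [hG2 n (n + 2) (F x₀ t₀) L u t₀ hG.sol, hG.ts, hG.fs, hJ] with z h2 hts hfs hzJ
    U hU
  set S := ‖∑ i, U i • dv1 (grf (F x₀ t₀) L u z.2) z.1 i‖ with hS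
  obtain ⟨c, hc1, hc2⟩ := hfs (fun i => S⁻¹ * U i)
  right
  refine ⟨c, ?_, ?_⟩
  · unfold gn
    rw [hc1]
    have e1 : ∑ i, (S⁻¹ * U i) • dv1 (grf (F x₀ t₀) L u z.2) z.1 i
        = S⁻¹ • ∑ i, U i • dv1 (grf (F x₀ t₀) L u z.2) z.1 i := by
      rw [Finset.smul_sum]
      exact Finset.sum_congr rfl fun i _ => mul_smul _ _ _
    rw [e1, norm_smul, ← hS, norm_inv, Real.norm_eq_abs, abs_of_pos hU, inv_mul_cancel₀ hU.ne',
      one_pow]
  · have hν : nrm (grf (F x₀ t₀) L u z.2) z.1 (ν (θ z) z.2) = ν (θ z) z.2 := by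
      refine (hNR n (n + 2) (grf (F x₀ t₀) L u z.2) z.1 h2.2.2.2.2).2.2.2.1 _ fun i => ?_
      rw [real_inner_comm]
      refine hF.tν (θ z) z.2 hzJ _ ?_
      rw [← hts]
      exact Submodule.subset_span ⟨i, rfl⟩
    have hself := (hNR n (n + 2) (grf (F x₀ t₀) L u z.2) z.1 h2.2.2.2.2).2.2.2.2.2.2.1
    have e2 : ∀ i j, (inner ℝ (sff (grf (F x₀ t₀) L u z.2) z.1 i j) (ν (θ z) z.2) : ℝ)
        = inner ℝ (jgg u z i j) (ν (θ z) z.2) := by
      intro i j
      unfold sff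
      rw [hself, hν, h2.2.1 i j]
    unfold hn
    rw [hc2, sum_inner, Finset.sum_div]
    refine Finset.sum_congr rfl fun i _ => ?_
    rw [sum_inner, Finset.sum_div]
    refine Finset.sum_congr rfl fun j _ => ?_
    rw [real_inner_smul_left, e2]
    field_simp

private theorem cube (hG1 : StG1) (J : Set ℝ) (F ν : M → ℝ → EE (n + 2))
    (x₀ : M) (t₀ : ℝ) (L : EE n →ₗᵢ[ℝ] EE (n + 2))
    (u : EE n × ℝ → EE (n + 2)) (θ : EE n × ℝ → M) (hG : GCh n F x₀ t₀ L u θ)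
    (hL : ∀ v, (inner ℝ (L v) (ν x₀ t₀) : ℝ) = 0) (P : ℝ)
    (hP : ∀ z ∈ ZS n F ν x₀ t₀, z ≤ P) (c : Fin n → ℝ) (hc : ∑ i, c i ^ 2 = 1)
    (hPc : ∑ i, ∑ j, (inner ℝ (jgg u (0, t₀) i j) (ν x₀ t₀) : ℝ) * (c i * c j) = P) :
    ∑ k, ∑ i, ∑ j, (inner ℝ (jggg u (0, t₀) k i j) (ν x₀ t₀) : ℝ) * (c k * (c i * c j)) = 0 := by
  have hs5 : ContDiffAt ℝ 3 u ((0 : EE n), t₀) := hG.sol.smooth.of_le
    (WithTop.coe_le_coe.2 (le_top : (3 : ℕ∞) ≤ ⊤))
  have hev : ∀ᶠ z in 𝓝 ((0 : EE n), t₀), ContDiffAt ℝ 3 u z := hs5.eventually (by decide)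
  have cd : ∀ {φ : EE n × ℝ → EE (n + 2)} {z : EE n × ℝ} {a b : WithTop ℕ∞},
      ContDiffAt ℝ a φ z → b + 1 ≤ a → ∀ k : Fin n, ContDiffAt ℝ b (fun z => jg φ z k) z := by
    intro φ z a b h hab k
    unfold jg
    exact (h.fderiv_right hab).clm_apply contDiffAt_const
  have h21 : (2 : WithTop ℕ∞) + 1 ≤ 3 := by norm_num
  have h11 : (1 : WithTop ℕ∞) + 1 ≤ 2 := by norm_num
  -- the line
  have hline : Tendsto (fun r : ℝ => ((r • vc c, t₀) : EE n × ℝ)) (𝓝 0) (𝓝 ((0 : EE n), t₀)) := by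
    have h : Continuous (fun r : ℝ => ((r • vc c, t₀) : EE n × ℝ)) := by fun_prop
    have h' := h.tendsto 0
    simpa using h'
  have hz0 : (((0 : ℝ) • vc c, t₀) : EE n × ℝ) = ((0 : EE n), t₀) := by rw [zero_smul]
  obtain ⟨v, hv⟩ : ∃ v : ℝ → EE (n + 2), v = fun r => u (r • vc c, t₀) := ⟨_, rfl⟩
  obtain ⟨v1, hv1⟩ : ∃ v1 : ℝ → EE (n + 2), v1 = fun r => ∑ k, c k • jg u (r • vc c, t₀) k :=
    ⟨_, rfl⟩
  obtain ⟨v2, hv2⟩ : ∃ v2 : ℝ → EE (n + 2),
      v2 = fun r => ∑ k, c k • ∑ i, c i • jgg u (r • vc c, t₀) i k := ⟨_, rfl⟩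
  obtain ⟨v3, hv3⟩ : ∃ v3 : EE (n + 2),
      v3 = ∑ k, c k • ∑ i, c i • ∑ j, c j • jggg u ((0 : EE n), t₀) j i k := ⟨_, rfl⟩
  have d0 : ∀ᶠ r in 𝓝 (0 : ℝ), HasDerivAt v (v1 r) r := by
    filter_upwards [hline.eventually hev] with r hr
    rw [hv, hv1]
    exact line_deriv u c t₀ r (hr.differentiableAt (by norm_num))
  have d1 : ∀ᶠ r in 𝓝 (0 : ℝ), HasDerivAt v1 (v2 r) r := by
    filter_upwards [hline.eventually hev] with r hr
    rw [hv1, hv2]
    refine HasDerivAt.fun_sum fun k _ => ?_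
    exact (line_deriv (fun z => jg u z k) c t₀ r
      ((cd hr h21 k).differentiableAt (by norm_num))).const_smul (c k)
  have d2 : HasDerivAt v2 v3 0 := by
    rw [hv2, hv3]
    refine HasDerivAt.fun_sum fun k _ => ?_
    refine HasDerivAt.const_smul (c k) ?_
    refine HasDerivAt.fun_sum fun i _ => ?_
    refine HasDerivAt.const_smul (c i) ?_
    have h := line_deriv (fun z => jgg u z i k) c t₀ 0 (by
      rw [hz0]
      exact (cd (cd hs5 h21 k) h11 i).differentiableAt (by norm_num))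
    rw [hz0] at h
    exact h
  have v00 : v 0 = 0 := by
    rw [hv]
    simp only []
    rw [hz0, hG.sol.u0]
  have v10 : v1 0 = 0 := by
    rw [hv1]
    simp only []
    rw [hz0]
    refine Finset.sum_eq_zero fun k _ => ?_
    rw [hG.sol.du0 k, smul_zero]
  have v20 : (inner ℝ (v2 0) (ν x₀ t₀) : ℝ) = P := by
    rw [hv2, ← hPc]
    simp only []
    rw [hz0, sum_inner, Finset.sum_comm]
    refine Finset.sum_congr rfl fun k _ => ?_
    rw [real_inner_smul_left, sum_inner, Finset.mul_sum]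
    refine Finset.sum_congr rfl fun i _ => ?_
    rw [real_inner_smul_left]
    ring
  have v30 : (inner ℝ v3 (ν x₀ t₀) : ℝ)
      = ∑ k, ∑ i, ∑ j, (inner ℝ (jggg u (0, t₀) k i j) (ν x₀ t₀) : ℝ) * (c k * (c i * c j)) := by
    have s3 := (hG1 n (n + 2) (F x₀ t₀) L u t₀ hG.sol).2.1
    rw [hv3, sum_inner]
    refine Finset.sum_congr rfl fun k _ => ?_
    rw [real_inner_smul_left, sum_inner, Finset.mul_sum]
    refine Finset.sum_congr rfl fun i _ => ?_
    rw [real_inner_smul_left, sum_inner, Finset.mul_sum, Finset.mul_sum]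
    refine Finset.sum_congr rfl fun j _ => ?_
    rw [real_inner_smul_left, s3.2 j i k, s3.1 j k i, s3.2 k j i]
    ring
  have hle : ∀ᶠ r in 𝓝 (0 : ℝ),
      2 * (inner ℝ (v r) (ν x₀ t₀) : ℝ) - P * r ^ 2 - P * inner ℝ (v r) (v r) ≤ 0 := by
    filter_upwards [hline.eventually hG.eq, hline.eventually hG.sol.perp] with r hr hperp
    have hvr : v r = u (r • vc c, t₀) := by rw [hv]
    rcases eq_or_ne r 0 with h0 | h0
    · rw [h0, v00]
      simp
    · have e1 : F (θ (r • vc c, t₀)) t₀ - F x₀ t₀ = r • L (vc c) + v r := by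
        have h : F (θ (r • vc c, t₀)) t₀ = grf (F x₀ t₀) L u t₀ (r • vc c) := hr
        rw [h, hvr]
        unfold grf
        rw [map_smul]
        abel
      have e2 : ‖F (θ (r • vc c, t₀)) t₀ - F x₀ t₀‖ ^ 2 = r ^ 2 + inner ℝ (v r) (v r) := by
        rw [e1, norm_add_sq_real, real_inner_smul_left, real_inner_comm (v r) (L (vc c)), hvr,
          hperp (vc c), norm_smul, L.norm_map, mul_pow, norm_vc, hc, Real.norm_eq_abs, sq_abs,
          real_inner_self_eq_norm_sq]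
        ring
      have e3 : 0 < r ^ 2 + (inner ℝ (v r) (v r) : ℝ) := by
        have h := real_inner_self_nonneg (x := v r)
        positivity
      have e4 : F (θ (r • vc c, t₀)) t₀ ≠ F x₀ t₀ := by
        intro h
        rw [h, sub_self, norm_zero] at e2
        rw [← e2] at e3
        norm_num at e3
      have e5 : zch F ν x₀ (θ (r • vc c, t₀)) t₀ ≤ P := hP _ (Or.inl ⟨_, e4, rfl⟩)
      have e6 : (inner ℝ (F (θ (r • vc c, t₀)) t₀ - F x₀ t₀) (ν x₀ t₀) : ℝ)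
          = inner ℝ (v r) (ν x₀ t₀) := by
        rw [e1, inner_add_left, real_inner_smul_left, hL, mul_zero, zero_add]
      unfold zch at e5
      rw [e2, e6, div_le_iff₀ e3] at e5
      linarith
  have hinv : ∀ {f g : ℝ → EE (n + 2)} {f' g' : EE (n + 2)} {r : ℝ}, HasDerivAt f f' r →
      HasDerivAt g g' r → HasDerivAt (fun r => (inner ℝ (f r) (g r) : ℝ))
        (inner ℝ (f r) g' + inner ℝ f' (g r)) r := fun hf hg => hf.inner ℝ hg
  have hcn : ∀ r : ℝ, HasDerivAt (fun _ : ℝ => ν x₀ t₀) 0 r := fun r => hasDerivAt_const r _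
  have key := third_zero
    (fun r => 2 * (inner ℝ (v r) (ν x₀ t₀) : ℝ) - P * r ^ 2 - P * inner ℝ (v r) (v r))
    (fun r => 2 * (inner ℝ (v1 r) (ν x₀ t₀) : ℝ) - P * (2 * r) - P * (2 * inner ℝ (v r) (v1 r)))
    (fun r => 2 * (inner ℝ (v2 r) (ν x₀ t₀) : ℝ) - P * 2
      - P * (2 * (inner ℝ (v r) (v2 r) + inner ℝ (v1 r) (v1 r))))
    (2 * inner ℝ v3 (ν x₀ t₀)) ?_ ?_ ?_ ?_ ?_ ?_ hle
  · rw [← v30]
    linarith
  · filter_upwards [d0] with r h0
    have a1 := (hinv h0 (hcn r)).const_mul 2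
    have a2 := ((hasDerivAt_id r).pow 2).const_mul P
    have a3 := (hinv h0 h0).const_mul P
    have a4 := (a1.sub a2).sub a3
    refine a4.congr_deriv ?_
    rw [inner_zero_right, real_inner_comm (v r) (v1 r)]
    have e : ((2 : ℕ) : ℝ) * id r ^ (2 - 1) * 1 = 2 * r := by
      norm_num
    rw [e]
    ring
  · filter_upwards [d0, d1] with r h0 h1
    have a1 := (hinv h1 (hcn r)).const_mul 2
    have a2 := ((hasDerivAt_id r).const_mul 2).const_mul P
    have a3 := ((hinv h0 h1).const_mul 2).const_mul P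
    have a4 := (a1.sub a2).sub a3
    refine a4.congr_deriv ?_
    rw [inner_zero_right]
    ring
  · have h0 := d0.self_of_nhds
    have h1 := d1.self_of_nhds
    have a1 := (hinv d2 (hcn 0)).const_mul 2
    have a2 := hasDerivAt_const (0 : ℝ) (P * 2)
    have a3 := (((hinv h0 d2).add (hinv h1 h1)).const_mul 2).const_mul P
    have a4 := (a1.sub a2).sub a3
    refine a4.congr_deriv ?_
    rw [inner_zero_right, v00, v10]
    simp
  · rw [v00]
    simp
  · rw [v00, v10]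
    simp
  · rw [v00, v10, v20]
    simp
    ring

end geo

theorem hSL1 (hNUJ : StNUJ) (hBLJ : StBLJ) (hG1 : StG1) (hG2 : StG2) (hNR : StNR) : StSL1 := by
  intro n M _ _ _ J F ν hF x₀ t₀ ht₀ L u θ hG hm c₀ P Q hg0 hP hQP hZ
  obtain ⟨K, hK⟩ : ∃ K : Fin n → Fin n → ℝ,
    K = fun i j => inner ℝ (jgg u (0, t₀) i j) (ν x₀ t₀) := ⟨_, rfl⟩
  obtain ⟨n1, n2, n3, n4, n5, n6, n7, n8⟩ := hNUJ n M J F ν hF x₀ t₀ ht₀ L u θ hG hm K hK
  have hmem := mem_ev hG2 hNR J F ν hF x₀ t₀ ht₀ L u θ hG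
  have hG2' := hG2 n (n + 2) (F x₀ t₀) L u t₀ hG.sol
  have hdv : ∀ i, dv1 (grf (F x₀ t₀) L u t₀) 0 i = L (ee i) := by
    intro i
    have h := hG2'.self_of_nhds.1 i
    rw [hG.sol.du0 i, add_zero] at h
    exact h
  -- the quadratic form
  have hquad : ∀ V : Fin n → ℝ, Q * ∑ i, V i ^ 2 ≤ ∑ i, ∑ j, K i j * (V i * V j) ∧
      ∑ i, ∑ j, K i j * (V i * V j) ≤ P * ∑ i, V i ^ 2 := by
    intro V
    have e1 : ‖∑ i, V i • dv1 (grf (F x₀ t₀) L u ((0 : EE n), t₀).2) ((0 : EE n), t₀).1 i‖ ^ 2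
        = ∑ i, V i ^ 2 := by
      rw [← norm_L L V]
      simp only [hdv]
    have hpos : 0 ≤ ∑ i, V i ^ 2 := Finset.sum_nonneg fun i _ => sq_nonneg _
    rcases hpos.eq_or_lt with h0 | h0
    · have hV : ∀ i, V i = 0 := by
        intro i
        have h := (Finset.sum_eq_zero_iff_of_nonneg (fun i _ => sq_nonneg (V i))).1 h0.symm i
          (Finset.mem_univ i)
        exact (pow_eq_zero_iff two_ne_zero).1 h
      simp [hV]
    · have h1 := hmem.self_of_nhds V (by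
        have h2 : 0 < ‖∑ i, V i • dv1 (grf (F x₀ t₀) L u ((0 : EE n), t₀).2)
            ((0 : EE n), t₀).1 i‖ ^ 2 := by rw [e1]; exact h0
        exact pos_of_sq_pos (norm_nonneg _) h2)
      rw [e1, hG.pt] at h1
      have h3 := hZ _ h1
      have e2 : ∑ i, ∑ j, V i * V j * (inner ℝ (jgg u ((0 : EE n), t₀) i j)
          (ν x₀ ((0 : EE n), t₀).2) : ℝ) = ∑ i, ∑ j, K i j * (V i * V j) := by
        rw [hK]
        refine Finset.sum_congr rfl fun i _ => Finset.sum_congr rfl fun j _ => ?_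
        ring
      rw [e2, le_div_iff₀ h0, div_le_iff₀ h0] at h3
      exact h3
  obtain ⟨c, hc1, hc2⟩ := hG.fs' c₀
  have hc : ∑ i, c i ^ 2 = 1 := by
    rw [← norm_L L c, ← hc1]
    exact hg0
  have hPc : ∑ i, ∑ j, K i j * (c i * c j) = P := by
    rw [hP]
    unfold hn
    rw [hc2, sum_inner, hK]
    refine Finset.sum_congr rfl fun i _ => ?_
    rw [sum_inner]
    refine Finset.sum_congr rfl fun j _ => ?_
    rw [real_inner_smul_left]
    ring
  have hKc : ∀ i, ∑ j, K i j * c j = P * c i :=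
    eig K n2 P c (fun V => (hquad V).2) (by rw [hPc, hc, mul_one])
  obtain ⟨T, hT⟩ : ∃ T : Fin n → Fin n → Fin n → ℝ,
    T = fun i j k => inner ℝ (jggg u (0, t₀) i j k) (ν x₀ t₀) := ⟨_, rfl⟩
  have hTc : ∑ k, ∑ i, ∑ j, T k i j * (c k * (c i * c j)) = 0 := by
    rw [hT]
    refine cube hG1 J F ν x₀ t₀ L u θ hG (fun v => (n1 v).1) P (fun z hz => (hZ z hz).2) c hc ?_
    rw [hK] at hPc
    exact hPc
  have hT1 : ∀ i j k, T i j k = T j i k := by
    intro i j k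
    rw [hT]
    simp only []
    rw [(hG1 n (n + 2) (F x₀ t₀) L u t₀ hG.sol).2.1.1 i j k]
  obtain ⟨τ, hτ⟩ : ∃ τ : Fin n → ℝ, τ = fun k => ∑ i, ∑ j, T k i j * (c i * c j) := ⟨_, rfl⟩
  obtain ⟨B, hB⟩ : ∃ B : Fin n → Fin n → ℝ,
    B = fun k i => (1 / (P - Q)) * (∑ j, T k i j * c j - τ k * c i) := ⟨_, rfl⟩
  obtain ⟨b1, b2⟩ := algB K T hT1 P Q hQP c hc (fun V => (hquad V).1) hTc τ hτ B hB
  obtain ⟨U, hU⟩ : ∃ U : EE n × ℝ → Fin n → ℝ, U = fun z i => c i + ∑ k, z.1 k * B k i :=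
    ⟨_, rfl⟩
  obtain ⟨β, hβ⟩ : ∃ β : EE n × ℝ → ℝ, β = fun z =>
      (∑ i, ∑ j, U z i * U z j * inner ℝ (jgg u z i j) (ν (θ z) z.2))
        / ‖∑ i, U z i • dv1 (grf (F x₀ t₀) L u z.2) z.1 i‖ ^ 2 := ⟨_, rfl⟩
  have hm0 : (fun z : EE n × ℝ => ν (θ z) z.2) (0, t₀) = ν x₀ t₀ := by
    simp only []
    rw [hG.pt]
  obtain ⟨r1, r2, r3, r4⟩ := hBLJ n (n + 2) (F x₀ t₀) L u t₀ hG.sol
    (fun z : EE n × ℝ => ν (θ z) z.2) (ν x₀ t₀) K (h2N n F x₀ t₀)
    (2 * Hs n F ν x₀ t₀ / rr n t₀) (rr n t₀) hm hm0 (hF.nν x₀ t₀ ht₀) (hF.r0 t₀ ht₀)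
    (hF.sph x₀ t₀ ht₀) (hF.Fν x₀ t₀ ht₀) n1 n3 n7 n8 T hT c P B hc hKc b1 U hU β hβ
  refine ⟨β, r1, r2, ?_, ?_⟩
  · filter_upwards [hmem, hG2'] with z hz h2
    have hUc : ∑ i, U z i * c i = 1 := by
      rw [hU]
      simp only []
      have e1 : ∀ i, (c i + ∑ k, z.1 k * B k i) * c i
          = c i ^ 2 + ∑ k, z.1 k * (B k i * c i) := by
        intro i
        rw [add_mul, Finset.sum_mul]
        refine congrArg₂ (· + ·) (by ring) (Finset.sum_congr rfl fun k _ => by ring)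
      simp only [e1]
      rw [Finset.sum_add_distrib, hc, Finset.sum_comm]
      have e2 : ∀ k, ∑ i, z.1 k * (B k i * c i) = 0 := by
        intro k
        rw [← Finset.mul_sum, b1 k, mul_zero]
      simp [e2]
    have hne : ∑ i, U z i • dv1 (grf (F x₀ t₀) L u z.2) z.1 i ≠ 0 := by
      intro h0
      have hLI : LinearIndependent ℝ
        (fun i : Fin n => dv1 (grf (F x₀ t₀) L u z.2) z.1 i) := h2.2.2.2.2
      have h3 := Fintype.linearIndependent_iff.1 hLI (U z) h0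
      rw [Finset.sum_eq_zero (fun i _ => by rw [h3 i, zero_mul])] at hUc
      exact zero_ne_one hUc
    have h4 := hz (U z) (norm_pos_iff.2 hne)
    rw [hβ]
    exact h4
  · have e1 : ∀ k, jg β (0, t₀) k = τ k := by
      intro k
      rw [r3 k, hτ]
    simp only [e1]
    rw [r4]
    linarith

end Helper30.HSF
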